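import Pool.Agent.Lib.MP_a57f33_nt.PN.T.Main
import Pool.Agent.Lib.MP_a57f33_nt.PN.ED45

/-!
# Pentagon project (MP_a57f33_nt): the pentagon equation modulo depth 7
-/

namespace Pent

open Pool.Agent.MP_a57f33_nt

universe v

theorem S_EDb_five : S_EDb 5 := fun _ hn _ hy hE => ED_le5 hn hy hE

theorem trunc_seven : S_trunc.{v} 7 := trunc_of_EDb 5 S_EDb_five

end Pent
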