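import Pool.Agent.Lib.MP_a57f33_nt.PN.T.PSb
import Pool.Agent.Lib.MP_a57f33_nt.PN.K.Defs
import Pool.Agent.Lib.MP_a57f33_nt.PN.P.B

/-!
# Pentagon project (MP_a57f33_nt): bounded version of the piece `B`
-/

namespace Pent

/-- (ED) in size at most `n0` -/
def S_EDb (n0 : ℕ) : Prop :=
  ∀ n : ℕ, n ≤ n0 → ∀ y : ℚ → List ℚ → List ℚ → ℚ, PolyED y → EDeq y n → EDconst y n

theorem p_Bb (n0 : ℕ) (hED : S_EDb n0) (p m : ℕ) (D D' : List Sl → ℚ) (hp : 2 ≤ p)
    (hm0 : m ≤ n0 + 1) (hK : KK p m D D') :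
    ∀ gs : List Sl, gs.length = p → uvok gs → nl gs = m → D gs = 0 ∧ D' gs = 0 := by
  obtain ⟨k, rfl⟩ : ∃ k, p = k + 2 := ⟨p - 2, by omega⟩
  intro gs hgs hok hm
  obtain ⟨N, rfl⟩ : ∃ N, m = N + 1 := by
    refine ⟨m - 1, ?_⟩
    have : 1 ≤ nl gs := by
      cases gs with
      | nil => simp at hgs
      | cons g gs =>
        have := B_one_le (hok g (by simp)).1
        simp only [nl, List.map_cons, List.sum_cons]
        omega
    omega
  have hPS : PSeq (B_x D) (k + 2) N := by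
    intro l h1 h2 h3
    have g1 : uvok (l.map B_mom) := (B_ok_mom l).mp h1
    have g2 : (l.map B_mom).length = k + 2 := by simpa using h2
    have g3 : nl (l.map B_mom) = N + 1 := by rw [B_nl_mom, h3]
    obtain ⟨x1, x2⟩ := B_X (k + 2) (N + 1) D D' hK (by omega) _ g2 g1 g3
    have x3 := B_Y (k + 2) (N + 1) D D' hK (by omega) _ g2 g1 g3
    obtain ⟨f1, f2⟩ := B_flat_mom l h1
    have e1 : - (flat (l.map B_mom)).sum = sE l - sF l := by rw [f1]; ring
    have e2 : - vsum (l.map B_mom) = sE l - sM l := by rw [f2]; ring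
    rw [e1] at x2
    rw [e2] at x3
    have h := B_PSsum l h1 (B_E D) 1 0 (sF l) (sM l) (sE l) (by ring)
    have e3 : (fun (w : ℚ) (t : List (Slot ℚ)) =>
        1 * (-1) ^ (B_rl t) * B_E D (0 + sE t - w) (t.map B_mom)) = B_x D := by
      funext w t
      unfold B_x
      rw [one_mul, zero_add]
    rw [e3] at h
    rw [h, ← x1, ← x2, ← x3, sub_self, mul_zero]
  have hcon := PS_of_EDb PolyED k N (fun n hn => hED n (by omega)) (B_x D) (B_PolyED D hK.polD) hPS
  have hE : ∀ (ρ : ℚ) (hs : List Sl), hs.length = k + 2 → uvok hs → nl hs = N →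
      B_E D ρ hs = 0 := by
    intro ρ hs h1 h2 h3
    obtain ⟨l, rfl⟩ := B_ex_slots hs
    have ok : ∀ a ∈ l, a.ok := (B_ok_mom l).mpr h2
    have len : l.length = k + 2 := by simpa using h1
    have sz : tsize l = N := by rw [← B_nl_mom, h3]
    have h := hcon (sE l - ρ) 0 l
      (l.map fun a => ⟨List.replicate a.L.length 0, 0, List.replicate a.R.length 0⟩) ok len sz
      (by
        rw [List.forall₂_map_right_iff]
        apply List.forall₂_same.mpr
        intro a _
        constructor <;> simp)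
    rw [B_x_zero D hK.zeroD] at h
    unfold B_x at h
    rw [sub_sub_cancel] at h
    rcases mul_eq_zero.mp h with h | h
    · exact absurd h (pow_ne_zero _ (by norm_num))
    · exact h
  obtain ⟨x1, x2⟩ := B_X (k + 2) (N + 1) D D' hK (by omega) gs hgs hok hm
  constructor
  · rw [x1]
    apply B_osum_zero
    intro q hq
    obtain ⟨b1, b2, b3⟩ := B_mods_good dv B_good_dv gs hok q hq
    exact hE _ _ (by omega) b1 (by omega)
  · rw [x2]
    apply B_osum_zero
    intro q hq
    obtain ⟨b1, b2, b3⟩ := B_mods_good du B_good_du gs hok q hq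
    exact hE _ _ (by omega) b1 (by omega)

theorem S_Bb_of_EDb (n0 : ℕ) (hED : S_EDb n0) : S_Bb n0 :=
  fun p m D D' hp hm0 hK => p_Bb n0 hED p m D D' hp hm0 hK

end Pent
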