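import Pool.Agent.Lib.MP_a57f33_nt.PN.T.Main
import Pool.Agent.Lib.MP_a57f33_nt.PN.ED6C
import Pool.Agent.Lib.MP_a57f33_nt.PN.StepA
import Pool.Agent.Lib.MP_a57f33_nt.PN.StepB

/-!
# Pentagon project (MP_a57f33_nt): the pentagon equation modulo depth 8
-/

namespace Pent

open Pool.Agent.MP_a57f33_nt

universe v

/-- (ED) for `n ≤ 6`, all degrees -/
theorem ED_le6 {y : ℚ → List ℚ → List ℚ → ℚ} {n : ℕ} (hn : n ≤ 6) (hP : PolyED y)
    (hE : EDeq y n) : EDconst y n := by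
  rcases (by omega : n ≤ 5 ∨ n = 6) with h | rfl
  · exact ED_le5 h hP hE
  · exact E6.ED6 (fun G C C' => stepA G C C') E6.stepB hP hE

theorem S_EDb_six : S_EDb 6 := fun _ hn _ hy hE => ED_le6 hn hy hE

theorem trunc_eight : S_trunc.{v} 8 := trunc_of_EDb 6 S_EDb_six

end Pent
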