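import Pool.Agent.Lib.MP_a57f33_nt.PN.K.Defs
import Pool.Agent.Lib.MP_a57f33_nt.PN.Main

/-!
# Pentagon project (MP_a57f33_nt): bounded version of Half II
-/

namespace Pent

open Pool.Agent.MP_a57f33_nt.Cyc (shuffle)

/-- **Half II from its pieces, bounded.** -/
theorem IIb_of (htri : S_tri) (hone : S_one) (hO2 : S_O2) (hO3 : S_O3) (hO4 : S_O4)
    (hO6 : S_O6) (hpol : S_pol) (n0 : ℕ) (hB : S_Bb n0) (m : ℕ) (hm0 : m ≤ n0 + 1)
    (P R : Wd → ℚ) (h : PR m P R) : ∀ w, P w = 0 ∧ R w = 0 := by
  have pureR : ∀ (x : Bool) (w : Wd), (∀ y ∈ w, y.1 = x) → R w = 0 := by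
    intro x w hw
    have e : w = if x then cw (w.map fun y => y.2) else bw (w.map fun y => y.2) := by
      cases x
      · simp only [Bool.false_eq_true, if_false, bw, List.map_map]
        conv_lhs => rw [← List.map_id w]
        apply List.map_congr_left
        intro y hy
        simp [Prod.ext_iff, hw y hy]
      · simp only [if_true, cw, List.map_map]
        conv_lhs => rw [← List.map_id w]
        apply List.map_congr_left
        intro y hy
        simp [Prod.ext_iff, hw y hy]
    rw [e]
    cases x
    · simpa [cw] using h.cbR [] (w.map fun y => y.2)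
    · simpa [bw] using h.cbR (w.map fun y => y.2) []
  have key : ∀ p : ℕ, 1 ≤ p → ∀ gs : List Sl, gs.length = p → vok gs →
      LL P gs = 0 ∧ LL R gs = 0 := by
    intro p hp
    induction p, hp using Nat.le_induction with
    | base =>
      intro gs hgs hv
      obtain ⟨g, rfl⟩ := List.length_eq_one_iff.mp hgs
      exact hone m P R h g (hv g (by simp))
    | succ p hp ih =>
      have iP : ∀ gs : List Sl, gs.length = p → vok gs → LL P gs = 0 :=
        fun gs h1 h2 => (ih gs h1 h2).1
      have iR : ∀ gs : List Sl, gs.length = p → vok gs → LL R gs = 0 :=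
        fun gs h1 h2 => (ih gs h1 h2).2
      intro gs hgs hv
      by_cases hu : uvok gs
      swap
      · have : ∃ g ∈ gs, g.1 = [] := by
          by_contra hcon
          push Not at hcon
          exact hu fun g hg => ⟨hcon g hg, hv g hg⟩
        exact ⟨hO2 p P hp h.lieP iP gs hgs hv this, hO2 p R hp h.lieR iR gs hgs hv this⟩
      by_cases hm : nl gs = m
      swap
      · have hl : ∀ w ∈ OS gs, w.length ≠ m := by
          intro w hw
          rw [(OS_perm gs w hw).length_eq, length_lets]
          exact hm
        exact ⟨LL_zero P gs fun w hw => h.suppP w (hl w hw),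
          LL_zero R gs fun w hw => h.suppR w (hl w hw)⟩
      have hKK : KK (p + 1) m (LL P) (LL R) := by
        refine ⟨hpol P h.polP, hpol R h.polR, ?_, ?_, ?_, ?_⟩
        · intro gs hz
          apply LL_zero
          intro w hw
          apply h.zeroP
          intro y hy
          have hy2 : y ∈ lets gs := (OS_perm gs w hw).subset hy
          apply hz
          simp only [lets, List.mem_flatMap, List.mem_append, bw, cw, List.mem_map] at hy2
          obtain ⟨g, hg, h1⟩ := hy2
          simp only [flat, List.mem_flatMap, List.mem_append]
          refine ⟨g, hg, ?_⟩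
          rcases h1 with ⟨a, ha, rfl⟩ | ⟨a, ha, rfl⟩
          · exact Or.inl ha
          · exact Or.inr ha
        · intro gs hz
          apply LL_zero
          intro w hw
          apply h.zeroR
          intro y hy
          have hy2 : y ∈ lets gs := (OS_perm gs w hw).subset hy
          apply hz
          simp only [lets, List.mem_flatMap, List.mem_append, bw, cw, List.mem_map] at hy2
          obtain ⟨g, hg, h1⟩ := hy2
          simp only [flat, List.mem_flatMap, List.mem_append]
          refine ⟨g, hg, ?_⟩
          rcases h1 with ⟨a, ha, rfl⟩ | ⟨a, ha, rfl⟩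
          · exact Or.inl ha
          · exact Or.inr ha
        · intro gs h1 h2 h3 h4
          rw [← hO4 p R hp h.lieR gs h1 h2, ← hO3 p P hp h.lieP iP gs h1 h2]
          apply LL_congr
          intro w hw
          have pw := OS_perm gs w hw
          apply h.K2
          · rw [pw.length_eq, length_lets, h3]
          · rw [tot_perm pw, tot_lets, h4]
        · intro gs h1 h2 h3 h4
          have e1 : osum dv (fun _ t => LL P t + LL R t) gs
              = LL (brk true (fun t => P t + R t)) gs := by
            rw [osum_add, ← hO4 p P hp h.lieP gs h1 h2, ← hO4 p R hp h.lieR gs h1 h2,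
              ← LL_add]
            apply LL_congr
            intro w _
            have : ∀ w : Wd, fstL true (fun t => P t + R t) w
                = fstL true P w + fstL true R w := by
              intro w
              cases w with
              | nil => simp [fstL]
              | cons y w => simp only [fstL]; split_ifs <;> simp
            have e2 : ∀ w : Wd, lstL true (fun t => P t + R t) w
                = lstL true P w + lstL true R w := by
              intro w
              unfold lstL
              cases w.reverse with
              | nil => simp [fstL]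
              | cons y w => simp only [fstL]; split_ifs <;> simp
            simp only [brk]
            rw [this, e2]
            ring
          have e3 := hO6 p P hp h.lieP iP gs h1 h2
          have e4 : LL (brk true (fun t => P t + R t)) gs + LL (mrg P) gs = 0 := by
            rw [← LL_add]
            apply LL_zero
            intro w hw
            have pw := OS_perm gs w hw
            apply h.K4
            · rw [pw.length_eq, length_lets, h3]
            · rw [csum_perm pw, csum_lets, h4]
          rw [e1]
          linarith
      exact hB (p + 1) m (LL P) (LL R) (by omega) hm0 hKK gs hgs hu hm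
  have fin : ∀ f : Wd → ℚ, LieFn f → (∀ (x : Bool) (w : Wd), (∀ y ∈ w, y.1 = x) → f w = 0) →
      (∀ p : ℕ, 1 ≤ p → ∀ gs : List Sl, gs.length = p → vok gs → LL f gs = 0) →
      ∀ w, f w = 0 := by
    intro f h1 h2 h3
    apply htri f h1 h2
    intro gs hne hv
    exact h3 gs.length (List.length_pos_iff.mpr hne) gs rfl hv
  intro w
  exact ⟨fin P h.lieP h.pureP (fun p hp gs h1 h2 => (key p hp gs h1 h2).1) w,
    fin R h.lieR pureR (fun p hp gs h1 h2 => (key p hp gs h1 h2).2) w⟩


/-- Half II in depth at most `n0 + 1`. -/
theorem s_IIb (n0 : ℕ) (hB : S_Bb n0) (m : ℕ) (hm0 : m ≤ n0 + 1)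
    (P R : Wd → ℚ) (h : PR m P R) : ∀ w, P w = 0 ∧ R w = 0 :=
  IIb_of p_tri p_one (p_O2 p_free) (p_O3 (p_O2 p_free)) p_O4 (p_O6 p_free (p_O2 p_free)) p_pol
    n0 hB m hm0 P R h

end Pent
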