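import Pool.Agent.Lib.MP_a57f33_nt.PN.T.depb
import Pool.Agent.Lib.MP_a57f33_nt.PN.T.Bb
import Pool.Agent.Lib.MP_a57f33_nt.PN.K.B

/-!
# Pentagon project (MP_a57f33_nt): the truncated pentagon equation

The slot level statement for at most `n0 + 1` letters implies that the pentagon defect of an element of `dm0` has depth at
least `n0 + 2`.
-/

namespace Pent

open Pool.Agent.MP_a57f33_nt

universe v

noncomputable section

/-- The pentagon equation holds modulo depth `d`: for `ψ ∈ dm0`, `φ(x₀, x₁) = ψ(x₀, -x₁)`, for all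
`t i j` with the infinitesimal braid relations and for each strand `j ≠ 0`, the left side of the
pentagon equation is a linear combination of products of the elements `t i j`, `i ≠ j`, with at
least `d` factors different from `t 0 j`. -/
def S_trunc (d : ℕ) : Prop :=
  ∀ ψ ∈ dm0, ∀ (A : Type v) [Ring A] [Algebra ℚ A] (t : Fin 4 → Fin 4 → A), Braid t →
    ∀ j : Fin 4, j ≠ 0 → pent (sgn ψ) t ∈
      Submodule.span ℚ {x : A | ∃ l : List (Fin 4), j ∉ l ∧ d ≤ (l.filter (· ≠ 0)).length ∧
        x = (l.map fun i => t i j).prod}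

/-- an element of `T3` is the sum of its monomials -/
theorem T_lift_span {A : Type v} [Ring A] [Algebra ℚ A] (θ : T3 →ₐ[ℚ] A) (f : T3)
    (d : ℕ) (hf : Fil d f) :
    θ f ∈ Submodule.span ℚ {x : A | ∃ l : List (Fin 3), d ≤ nbc l ∧
      x = (l.map fun i => θ (FreeAlgebra.ι ℚ i)).prod} := by
  classical
  have h := (FreeAlgebra.basisFreeMonoid ℚ (Fin 3)).linearCombination_repr f
  rw [← h, Finsupp.linearCombination_apply, Finsupp.sum, map_sum]
  apply Submodule.sum_mem
  intro w hw
  rw [map_smul]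
  apply Submodule.smul_mem
  apply Submodule.subset_span
  refine ⟨w.toList, ?_, ?_⟩
  · by_contra hlt
    push Not at hlt
    have := hf w.toList hlt
    unfold coeff at this
    rw [FreeMonoid.ofList_toList] at this
    exact (Finsupp.mem_support_iff.mp hw) this
  · have h2 := basis_apply (X := Fin 3) w.toList
    rw [FreeMonoid.ofList_toList] at h2
    rw [h2]
    unfold word
    rw [map_list_prod, List.map_map]
    rfl

/-- the identification of the strands for `wQ` -/
def eQ : Option (Fin 3) → Fin 4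
  | none => 2
  | some 0 => 0
  | some 1 => 1
  | some 2 => 3

/-- the identification of the strands for `wP` -/
def eP : Option (Fin 3) → Fin 4
  | none => 1
  | some 0 => 0
  | some 1 => 2
  | some 2 => 3

theorem T_braid {A : Type v} [Ring A] {t : Fin 4 → Fin 4 → A} (h : Braid t)
    (e : Option (Fin 3) → Fin 4) (he : Function.Injective e) :
    Braid (fun p q => t (e p) (e q)) := by
  have e' : ∀ {i j : Option (Fin 3)}, i ≠ j → e i ≠ e j := fun hij h' => hij (he h')
  exact ⟨fun i j => h.symm _ _,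
    fun i j k l h1 h2 h3 h4 h5 h6 => h.four _ _ _ _ (e' h1) (e' h2) (e' h3) (e' h4) (e' h5) (e' h6),
    fun i j k h1 h2 h3 => h.three _ _ _ (e' h1) (e' h2) (e' h3)⟩

theorem eQ_inj : Function.Injective eQ := by decide
theorem eP_inj : Function.Injective eP := by decide

/-- from the filtration of `R_w` to the span -/
theorem T_of_fil {φ : QX} (hφ : Good φ) (w : Fin 4 → Option (Fin 3))
    (hw : Function.Injective w) (e : Option (Fin 3) → Fin 4) (he : Function.Injective e)
    (hwe : ∀ i, e (w i) = i) (h0 : e (some 0) = 0) (d : ℕ) (hf : Fil d (Rw φ w))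
    {A : Type v} [Ring A] [Algebra ℚ A] (t : Fin 4 → Fin 4 → A) (ht : Braid t) :
    pent φ t ∈
      Submodule.span ℚ {x : A | ∃ l : List (Fin 4), e none ∉ l ∧
        d ≤ (l.filter (· ≠ 0)).length ∧ x = (l.map fun i => t i (e none)).prod} := by
  have h5 := p_univ.{v} φ hφ w hw A (fun p q => t (e p) (e q)) (T_braid ht e he)
  simp only [hwe] at h5
  rw [h5]
  have h6 := T_lift_span (FreeAlgebra.lift ℚ (fun i => t (e (some i)) (e none)))
    (Rw φ w) d hf
  refine Submodule.span_mono ?_ h6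
  rintro x ⟨l, hl, rfl⟩
  refine ⟨l.map (fun i => e (some i)), ?_, ?_, ?_⟩
  · intro hmem
    rw [List.mem_map] at hmem
    obtain ⟨i, -, hi⟩ := hmem
    exact absurd (he hi) (by simp)
  · have : ((l.map (fun i => e (some i))).filter (· ≠ 0)).length = nbc l := by
      unfold nbc
      rw [List.filter_map, List.length_map]
      congr 1
      apply List.filter_congr
      intro i _
      have : (e (some i) = 0) ↔ (i = 0) := by
        rw [← h0]
        constructor
        · intro h
          have := he h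
          simpa using this
        · rintro rfl; rfl
      simp [this]
    rw [this]
    exact hl
  · rw [List.map_map]
    congr 1
    apply List.map_congr_left
    intro i _
    simp

/-- The slot level statement for at most `n0 + 1` letters gives the filtration of the five
elements. -/
theorem T_fil_of_Bb (n0 : ℕ) (hB : S_Bb n0) (ψ : QX) (hψ : ψ ∈ dm0) :
    ∀ f ∈ ({Rw (sgn ψ) wR, Rw (sgn ψ) wQ, Rw (sgn ψ) wP, Rw (sgn ψ) wN, Rw (sgn ψ) wS} : Set T3),
      Fil (n0 + 2) f := by
  have hφ : Good (sgn ψ) := sgn_good hψ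
  have hcl : ClassZero (Rw (sgn ψ) wR) := s_F1 ψ hψ
  have h1 := fun w => p_lieR (sgn ψ) hφ w
  have h3 : Abc (Rw (sgn ψ) wR) (Rw (sgn ψ) wQ) (Rw (sgn ψ) wP) :=
    s_abc (sgn ψ) hφ (p_few p_clie p_mov _ (h1 wR).1 hcl)
  obtain ⟨V, hV⟩ := p_SP p_clie p_mov _ _ _ (h1 wR).1 (h1 wQ).1 (h1 wP).1
    (fun u hu => ⟨s_forg _ hφ wR wR_inj 2 u hu, s_forg _ hφ wQ wQ_inj 2 u hu,
      s_forg _ hφ wP wP_inj 2 u hu⟩) h3
  have hEq := p_tra p_univ.{0} p_tau (sgn ψ) V hφ hV
  exact p_depb n0 hB p_mlie p_mwrd p_mder (p_minj p_clie p_mov) p_mV p_van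
    _ _ _ _ _ V (by
      intro f hf
      simp only [Set.mem_insert_iff, Set.mem_singleton_iff] at hf
      rcases hf with rfl | rfl | rfl | rfl | rfl
      · exact ⟨(h1 wR).1, (h1 wR).2, s_forg _ hφ wR wR_inj⟩
      · exact ⟨(h1 wQ).1, (h1 wQ).2, s_forg _ hφ wQ wQ_inj⟩
      · exact ⟨(h1 wP).1, (h1 wP).2, s_forg _ hφ wP wP_inj⟩
      · exact ⟨(h1 wN).1, (h1 wN).2, s_forg _ hφ wN wN_inj⟩
      · exact ⟨(h1 wS).1, (h1 wS).2, s_forg _ hφ wS wS_inj⟩) hcl hEq

/-- **The slot level statement for at most `n0 + 1` letters implies the pentagon equation modulo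
depth `n0 + 2`.** -/
theorem trunc_of_Bb (n0 : ℕ) (hB : S_Bb n0) : S_trunc.{v} (n0 + 2) := by
  intro ψ hψ A _ _ t ht j hj
  have hφ : Good (sgn ψ) := sgn_good hψ
  have hall := T_fil_of_Bb n0 hB ψ hψ
  have hj' : j = 3 ∨ j = 2 ∨ j = 1 := by omega
  rcases hj' with rfl | rfl | rfl
  · exact T_of_fil hφ wR wR_inj eS eS_inj eS_wR rfl _ (hall _ (by simp)) t ht
  · exact T_of_fil hφ wQ wQ_inj eQ eQ_inj (by intro i; fin_cases i <;> rfl) rfl _
      (hall _ (by simp)) t ht
  · exact T_of_fil hφ wP wP_inj eP eP_inj (by intro i; fin_cases i <;> rfl) rfl _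
      (hall _ (by simp)) t ht

/-- **(ED) in size at most `n0` implies the pentagon equation modulo depth `n0 + 2`.** -/
theorem trunc_of_EDb (n0 : ℕ) (hED : S_EDb n0) : S_trunc.{v} (n0 + 2) :=
  trunc_of_Bb n0 (S_Bb_of_EDb n0 hED)

/-- **The slot lemma for at most `n0` letters implies the pentagon equation modulo depth
`n0 + 2`.** -/
theorem trunc_of_KEb (n0 : ℕ) (hKE : S_KEb n0) : S_trunc.{v} (n0 + 2) :=
  trunc_of_Bb n0 (p_KEB n0 hKE)

end

end Pent
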