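import Pool.Agent.Lib.MP_a57f33_nt.PN.T.IIb

/-!
# Pentagon project (MP_a57f33_nt): bounded version of the piece `dep` (descent in depth)
-/

namespace Pent

open Pool.Agent.MP_a57f33_nt
open Pool.Agent.MP_a57f33_nt.Cyc (shuffle)

noncomputable section

private theorem dep_fst_congr (x : Bool) {f g : Wd → ℚ} {n : ℕ}
    (h : ∀ t : Wd, t.length = n → f t = g t) {w : Wd} (hw : w.length = n + 1) :
    fstL x f w = fstL x g w := by
  cases w with
  | nil => rfl
  | cons y w =>
    simp only [fstL]
    rw [h w (by simpa using hw)]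

private theorem dep_brk_congr (x : Bool) {f g : Wd → ℚ} {n : ℕ}
    (h : ∀ t : Wd, t.length = n → f t = g t) {w : Wd} (hw : w.length = n + 1) :
    brk x f w = brk x g w := by
  unfold brk lstL
  rw [dep_fst_congr x h hw, dep_fst_congr x (n := n) (f := fun t => f t.reverse)
    (g := fun t => g t.reverse) (fun t ht => h _ (by simpa using ht)) (by simpa using hw)]

private theorem dep_fst_add (x : Bool) (f g : Wd → ℚ) (w : Wd) :
    fstL x (fun t => f t + g t) w = fstL x f w + fstL x g w := by
  cases w with
  | nil => simp [fstL]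
  | cons y w => simp only [fstL]; split_ifs <;> simp

private theorem dep_brk_add (x : Bool) (f g : Wd → ℚ) (w : Wd) :
    brk x (fun t => f t + g t) w = brk x f w + brk x g w := by
  unfold brk lstL
  rw [dep_fst_add]
  have := dep_fst_add x (fun t => f t.reverse) (fun t => g t.reverse) w.reverse
  rw [this]
  ring

private theorem dep_brk_zero (x : Bool) {f : Wd → ℚ} {n : ℕ}
    (h : ∀ t : Wd, t.length = n → f t = 0) {w : Wd} (hw : w.length = n + 1) :
    brk x f w = 0 := by
  rw [dep_brk_congr x (g := fun _ => 0) h hw]
  have h0 : ∀ t : Wd, fstL x (fun _ => (0 : ℚ)) t = 0 := by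
    intro t
    cases t with
    | nil => rfl
    | cons y t => simp [fstL]
  unfold brk lstL
  rw [h0, h0, sub_zero]

private theorem dep_mrg_congr : ∀ (n : ℕ) (f g : Wd → ℚ),
    (∀ t : Wd, t.length = n → f t = g t) → ∀ w : Wd, w.length = n + 1 →
    mrg f w = mrg g w := by
  intro n
  induction n with
  | zero =>
    intro f g _ w hw
    obtain ⟨y, rfl⟩ := List.length_eq_one_iff.1 hw
    rfl
  | succ n ih =>
    intro f g h w hw
    cases w with
    | nil => rfl
    | cons y w =>
      cases w with
      | nil => rfl
      | cons z w =>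
        obtain ⟨x, μ⟩ := y
        obtain ⟨x', ν⟩ := z
        have hl : w.length = n := by
          simp only [List.length_cons] at hw
          omega
        simp only [mrg]
        rw [ih (fun t => f ((x, μ) :: t)) (fun t => g ((x, μ) :: t))
          (fun t ht => h _ (by simp [ht])) ((x', ν) :: w) (by simp [hl])]
        rw [h ((false, μ + ν) :: w) (by simp [hl]), h ((true, μ + ν) :: w) (by simp [hl])]

private theorem dep_mrg_zero (n : ℕ) (f : Wd → ℚ)
    (h : ∀ t : Wd, t.length = n → f t = 0) (w : Wd) (hw : w.length = n + 1) :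
    mrg f w = 0 := by
  rw [dep_mrg_congr n f (fun _ => 0) h w hw]
  have h0 : ∀ w : Wd, mrg (fun _ => (0 : ℚ)) w = 0 := by
    intro w
    induction w with
    | nil => rfl
    | cons y w ih =>
      cases w with
      | nil => rfl
      | cons z w =>
        obtain ⟨x, μ⟩ := y
        obtain ⟨x', ν⟩ := z
        simp only [mrg]
        rw [ih]
        split_ifs <;> simp
  exact h0 w

private theorem dep_shuffle_length {α : Type} : ∀ (n : ℕ) (u v : List α),
    u.length + v.length = n → ∀ t ∈ shuffle u v, t.length = n := by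
  intro n
  induction n with
  | zero =>
    intro u v h t ht
    have hu : u = [] := List.length_eq_zero_iff.1 (by omega)
    have hv : v = [] := List.length_eq_zero_iff.1 (by omega)
    subst hu hv
    simp [shuffle] at ht
    simp [ht]
  | succ n ih =>
    intro u v h t ht
    cases u with
    | nil =>
      simp [shuffle] at ht
      rw [ht]
      simpa using h
    | cons a u =>
      cases v with
      | nil =>
        simp [shuffle] at ht
        rw [ht]
        simpa using h
      | cons b v =>
        simp only [shuffle, List.mem_append, List.mem_map] at ht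
        simp only [List.length_cons] at h
        rcases ht with ⟨s, hs, rfl⟩ | ⟨s, hs, rfl⟩
        · rw [List.length_cons, ih u (b :: v) (by simp only [List.length_cons]; omega) s hs]
        · rw [List.length_cons, ih (a :: u) v (by simp only [List.length_cons]; omega) s hs]

/-- a function restricted to words of length `m` -/
private def dep_cut (m : ℕ) (f : Wd → ℚ) (w : Wd) : ℚ := if w.length = m then f w else 0

private theorem dep_cut_lie (m : ℕ) {f : Wd → ℚ} (h : LieFn f) : LieFn (dep_cut m f) := by
  intro u v hu hv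
  by_cases hm : u.length + v.length = m
  · rw [← h u v hu hv]
    congr 1
    refine List.map_congr_left fun t ht => ?_
    unfold dep_cut
    rw [if_pos (dep_shuffle_length m u v hm t ht)]
  · have : (shuffle u v).map (dep_cut m f) = (shuffle u v).map fun _ => (0 : ℚ) := by
      refine List.map_congr_left fun t ht => ?_
      unfold dep_cut
      rw [if_neg (by rw [dep_shuffle_length _ u v rfl t ht]; exact hm)]
    rw [this]
    simp

private theorem dep_cut_pol (m : ℕ) {f : Wd → ℚ} (h : PolyW f) : PolyW (dep_cut m f) := by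
  intro p
  by_cases hm : p.length = m
  · obtain ⟨F, hF⟩ := h p
    refine ⟨F, fun l hl => ?_⟩
    rw [← hF l hl]
    exact if_pos (by rw [List.length_zip, hl, min_self, hm])
  · refine ⟨0, fun l hl => ?_⟩
    rw [map_zero]
    exact if_neg (by rw [List.length_zip, hl, min_self]; exact hm)

private theorem dep_zip (w : Wd) : (w.map fun y => y.1).zip (w.map fun y => y.2) = w := by
  induction w with
  | nil => rfl
  | cons y w ih => simp [ih]

private theorem dep_d13_one : d13 1 = 0 := by
  change (if (0 : Fin 3) = 2 then (0 : Module.End ℚ T3) else der _) 1 = 0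
  rw [if_neg (by decide)]
  exact der_one _

private theorem dep_d12_one : d12 1 = 0 := by
  change (if (0 : Fin 3) = 1 then (0 : Module.End ℚ T3) else der _) 1 = 0
  rw [if_neg (by decide)]
  exact der_one _

private theorem dep_ev2_sub {A : Type} [Ring A] [Algebra ℚ A] (V : QX) (c : ℚ) (a b : A) :
    ev2 (V - c • 1) a b = ev2 V a b - c • 1 := by
  unfold ev2
  rw [map_sub, map_smul, map_one]

private theorem dep_Eqs {R Q P N S : T3} {V : QX} (E : Eqs R Q P N S V) (c : ℚ) :
    Eqs R Q P N S (V - c • 1) := by
  refine ⟨?_, ?_, ?_⟩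
  · rw [E.i2, dep_ev2_sub, sub_mul, mul_sub, smul_mul_assoc, mul_smul_comm, one_mul, mul_one]
    abel
  · rw [E.i4, dep_ev2_sub, LinearMap.sub_apply, map_sub, LinearMap.smul_apply, map_smul,
      Module.End.one_apply, dep_d13_one, smul_zero, sub_zero]
  · rw [E.i4', dep_ev2_sub, LinearMap.sub_apply, map_sub, LinearMap.smul_apply, map_smul,
      Module.End.one_apply, dep_d12_one, smul_zero, sub_zero]

private theorem dep_nbc_of_filter {u : List (Fin 3)} {w : Wd}
    (h : u.filter (· ≠ 0) = w.map fun y => lt3 y.1) : nbc u = w.length := by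
  unfold nbc
  rw [h, List.length_map]

private theorem dep_lt3_ne (x : Bool) : lt3 x ≠ 0 := by
  cases x <;> simp [lt3]

private theorem dep_lt3_true : lt3 true = 2 := rfl
private theorem dep_lt3_false : lt3 false = 1 := rfl

/-- Bounded version of the piece `dep`. -/
theorem p_depb (n0 : ℕ) (hB : S_Bb n0) (hlie : S_mlie) (hwrd : S_mwrd) (hder : S_mder)
    (hinj : S_minj) (hmV : S_mV) (hvan : S_van) (R Q P N S : T3) (V : QX)
    (hall : ∀ f ∈ ({R, Q, P, N, S} : Set T3), f ∈ LieT (Fin 3) ∧
      (∀ i, coeff f [i] = 0) ∧ ∀ (i : Fin 3) (u : List (Fin 3)), i ∉ u → coeff f u = 0)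
    (hcz : ClassZero R) (E : Eqs R Q P N S V) :
    ∀ f ∈ ({R, Q, P, N, S} : Set T3), Fil (n0 + 2) f := by
  obtain ⟨hadd, hneg, hzero, hpoly, hxa, hax, hsupp, hVw⟩ := hwrd
  obtain ⟨hd23, hd13⟩ := hder
  have hsub : ∀ (f g : T3) (w : Wd), MM (f - g) w = MM f w - MM g w := by
    intro f g w
    rw [sub_eq_add_neg, hadd, hneg]
    ring
  -- remove the constant term of `V`
  obtain ⟨W, hW0, EW⟩ : ∃ W : QX, coeff W [] = 0 ∧ Eqs R Q P N S W := by
    refine ⟨V - coeff V [] • 1, ?_, dep_Eqs E _⟩
    rw [coeff_sub, coeff_smul]
    have : (1 : QX) = word ([] : List Bool) := rfl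
    rw [this, coeff_word]
    simp
  have hlieT : ∀ f ∈ ({R, Q, P, N, S} : Set T3), f ∈ LieT (Fin 3) := fun f hf => (hall f hf).1
  have hc0 : ∀ f ∈ ({R, Q, P, N, S} : Set T3), coeff f [0] = 0 := fun f hf => (hall f hf).2.1 0
  have hmiss : ∀ f ∈ ({R, Q, P, N, S} : Set T3), ∀ (i : Fin 3) (u : List (Fin 3)), i ∉ u →
      coeff f u = 0 := fun f hf => (hall f hf).2.2
  have hR : R ∈ ({R, Q, P, N, S} : Set T3) := by simp
  have hQ : Q ∈ ({R, Q, P, N, S} : Set T3) := by simp
  have hP : P ∈ ({R, Q, P, N, S} : Set T3) := by simp
  have hN : N ∈ ({R, Q, P, N, S} : Set T3) := by simp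
  have hS : S ∈ ({R, Q, P, N, S} : Set T3) := by simp
  -- words without the letter of type `x`
  have hpure : ∀ f ∈ ({R, Q, P, N, S} : Set T3), ∀ (x : Bool) (w : Wd),
      (∀ y ∈ w, y.1 = x) → MM f w = 0 := by
    intro f hf x w hw
    refine hsupp f w fun u hu => hmiss f hf (lt3 (!x)) u fun hmem => ?_
    have h1 : lt3 (!x) ∈ u.filter (· ≠ 0) := by
      rw [List.mem_filter]
      exact ⟨hmem, by simpa using dep_lt3_ne _⟩
    rw [hu, List.mem_map] at h1
    obtain ⟨y, hy, h2⟩ := h1
    rw [hw y hy] at h2
    cases x <;> simp [lt3] at h2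
  have hz : ∀ f ∈ ({R, Q, P, N, S} : Set T3), ∀ w : Wd, (∀ y ∈ w, y.2 = 0) → MM f w = 0 := by
    intro f hf w hw
    rw [hzero f w hw]
    refine hmiss f hf 0 _ fun hmem => ?_
    rw [List.mem_map] at hmem
    obtain ⟨y, -, h2⟩ := hmem
    exact dep_lt3_ne _ h2
  -- the first equation
  have hi2 : (xa * R - R * xa) + (xb * R - R * xb) + (xc * R - R * xc) - (xa * Q - Q * xa)
      - (xb * Q - Q * xb) + (xa * P - P * xa) = ev2 W xb xc * xa - xa * ev2 W xb xc := by
    rw [← EW.i2]
    noncomm_ring
  have hi2M : ∀ w : Wd, tot w * (MM R w - MM Q w + MM P w + coeff W (w.map fun y => y.1)) +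
      (brk false (MM R) w + brk true (MM R) w - brk false (MM Q) w) = 0 := by
    intro w
    have h := congrArg (fun f => MM f w) hi2
    simp only [hadd, hsub (xa * P), hsub (ev2 W xb xc * xa), hxa, hax, hVw] at h
    rw [hsub (_ + (xc * R - R * xc) - _), hsub (_ + (xc * R - R * xc))] at h
    simp only [hadd, hsub (xa * R), hsub (xa * Q), hxa, hax] at h
    rw [(hlie R (hlieT R hR) (hc0 R hR)).2.2.1, (hlie R (hlieT R hR) (hc0 R hR)).2.2.2,
      (hlie Q (hlieT Q hQ) (hc0 Q hQ)).2.2.1] at h
    linear_combination h
  -- the induction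
  have main : ∀ m : ℕ, m ≤ n0 + 1 → ∀ f ∈ ({R, Q, P, N, S} : Set T3), ∀ w : Wd, w.length = m →
      MM f w = 0 := by
    intro m
    induction m using Nat.strong_induction_on with
    | _ m ih' =>
    intro hm0
    have ih : ∀ k : ℕ, k < m → ∀ f ∈ ({R, Q, P, N, S} : Set T3), ∀ w : Wd, w.length = k →
        MM f w = 0 := fun k hk => ih' k hk (by omega)
    rcases Nat.eq_zero_or_pos m with hmz | hmpos
    · intro f hf w hw
      have : w = [] := List.length_eq_zero_iff.1 (by omega)
      rw [this]
      exact (hlie f (hlieT f hf) (hc0 f hf)).2.1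
    obtain ⟨n, rfl⟩ : ∃ n, m = n + 1 := ⟨m - 1, by omega⟩
    have hFil : ∀ f ∈ ({R, Q, P, N, S} : Set T3), Fil (n + 1) f := by
      intro f hf u hu
      exact hinj f (nbc u) (hlieT f hf) (hc0 f hf) (fun w hw => ih _ hu f hf w hw) u rfl
    -- `R - Q + P + V = 0`
    have hpolF : PolyW fun w => MM R w - MM Q w + MM P w + coeff W (w.map fun y => y.1) := by
      intro p
      obtain ⟨F1, hF1⟩ := hpoly R p
      obtain ⟨F2, hF2⟩ := hpoly Q p
      obtain ⟨F3, hF3⟩ := hpoly P p
      refine ⟨F1 - F2 + F3 + MvPolynomial.C (coeff W p), fun l hl => ?_⟩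
      have hp : ((p.zip l).map fun y => y.1) = p := by
        have := List.map_fst_zip (l₁ := p) (l₂ := l) (by omega)
        exact this
      simp only [map_add, map_sub, MvPolynomial.eval_C]
      rw [← hF1 l hl, ← hF2 l hl, ← hF3 l hl, hp]
    have hsum : ∀ k : ℕ, 1 ≤ k → k ≤ n + 1 → ∀ w : Wd, w.length = k →
        MM R w - MM Q w + MM P w + coeff W (w.map fun y => y.1) = 0 := by
      intro k hk1 hk2 w hw
      have hp : (w.map fun y => y.1) ≠ [] := by
        rw [Ne, List.map_eq_nil_iff, ← List.length_eq_zero_iff]
        omega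
      have h := (hvan _ hpolF).1 (w.map fun y => y.1) hp (fun μ hμ htot => by
        have hl : ((w.map fun y => y.1).zip μ).length = (k - 1) + 1 := by
          rw [List.length_zip, hμ, min_self, List.length_map]
          omega
        have h1 := hi2M ((w.map fun y => y.1).zip μ)
        have hz0 : ∀ f ∈ ({R, Q, P, N, S} : Set T3), ∀ t : Wd, t.length = k - 1 →
            MM f t = 0 := fun f hf t ht => ih (k - 1) (by omega) f hf t ht
        rw [dep_brk_zero false (hz0 R hR) hl, dep_brk_zero true (hz0 R hR) hl,
          dep_brk_zero false (hz0 Q hQ) hl] at h1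
        simp only [add_zero, sub_zero, mul_eq_zero] at h1
        exact h1.resolve_left htot) (w.map fun y => y.2) (by simp)
      rw [dep_zip] at h
      exact h
    have hWk : ∀ u : List Bool, u.length < n + 2 → coeff W u = 0 := by
      intro u hu
      by_cases hu0 : u = []
      · rw [hu0]; exact hW0
      · have hpos : 1 ≤ u.length := by
          rw [Nat.one_le_iff_ne_zero, Ne, List.length_eq_zero_iff]
          exact hu0
        have h := hsum u.length hpos (by omega) (u.map fun x => (x, 0)) (by simp)
        have hzz : ∀ y ∈ (u.map fun x => ((x, 0) : Bool × ℚ)), y.2 = 0 := by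
          intro y hy
          rw [List.mem_map] at hy
          obtain ⟨x, -, rfl⟩ := hy
          rfl
        rw [hz R hR _ hzz, hz Q hQ _ hzz, hz P hP _ hzz] at h
        have : ((u.map fun x => ((x, 0) : Bool × ℚ)).map fun y => y.1) = u := by
          rw [List.map_map]
          exact List.map_id u
        rw [this] at h
        linarith
    have hQ' : ∀ w : Wd, w.length = n + 1 → MM Q w = MM P w + MM R w := by
      intro w hw
      have h := hsum (n + 1) (by omega) le_rfl w hw
      rw [hWk _ (by rw [List.length_map, hw]; omega)] at h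
      linarith
    obtain ⟨hX1, hX2⟩ := hmV W (n + 2) hWk
    have hXz : ∀ X : T3, Fil (n + 2) X → ∀ w : Wd, w.length = n + 1 → MM X w = 0 := by
      intro X hX w hw
      refine hsupp X w fun u hu => hX u ?_
      rw [dep_nbc_of_filter hu]
      omega
    have hFadd : ∀ (k : ℕ) (f g : T3), Fil k f → Fil k g → Fil k (f + g) := by
      intro k f g hf hg u hu
      rw [coeff_add, hf u hu, hg u hu, add_zero]
    have hFsub : ∀ (k : ℕ) (f g : T3), Fil k f → Fil k g → Fil k (f - g) := by
      intro k f g hf hg u hu
      rw [coeff_sub, hf u hu, hg u hu, sub_zero]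
    have hFle : ∀ (k l : ℕ) (f : T3), k ≤ l → Fil l f → Fil k f := by
      intro k l f hkl hf u hu
      exact hf u (lt_of_lt_of_le hu hkl)
    -- `i4`
    have hi4 : d13 ((P - N + S) + (ev2 W Lc d23) 1) + d23 P + ((xc * P - P * xc) -
        (xc * N - N * xc)) = 0 := by
      have h := EW.i4
      rw [map_add, map_add, map_sub]
      have h2 := sub_eq_zero.2 h
      rw [← h2]
      abel
    have hi4' : d12 ((N - P + Q) + (ev2 W Lb d23) 1) + d23 N + ((xb * N - N * xb) -
        (xb * P - P * xb)) = 0 := by
      have h := EW.i4'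
      rw [map_add, map_add, map_sub]
      have h2 := sub_eq_zero.2 h
      rw [← h2]
      abel
    have hFX1 : Fil (n + 1) ((P - N + S) + (ev2 W Lc d23) 1) :=
      hFadd _ _ _ (hFadd _ _ _ (hFsub _ _ _ (hFil P hP) (hFil N hN)) (hFil S hS))
        (hFle _ _ _ (by omega) hX1)
    have hFX2 : Fil (n + 1) ((N - P + Q) + (ev2 W Lb d23) 1) :=
      hFadd _ _ _ (hFadd _ _ _ (hFsub _ _ _ (hFil N hN) (hFil P hP)) (hFil Q hQ))
        (hFle _ _ _ (by omega) hX2)
    have hM1 : ∀ w : Wd, MM (d13 ((P - N + S) + (ev2 W Lc d23) 1)) w + mrg (MM P) w +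
        (brk true (MM P) w - brk true (MM N) w) = 0 := by
      intro w
      have h := congrArg (fun f => MM f w) hi4
      have h0 : MM (0 : T3) w = 0 := by
        have := hadd 0 0 w
        rw [add_zero] at this
        linarith
      simp only [h0] at h
      rw [hadd, hadd, hd23, hsub (xc * P - P * xc),
        (hlie P (hlieT P hP) (hc0 P hP)).2.2.2, (hlie N (hlieT N hN) (hc0 N hN)).2.2.2] at h
      exact h
    have hM2 : ∀ w : Wd, MM (d12 ((N - P + Q) + (ev2 W Lb d23) 1)) w + mrg (MM N) w +
        (brk false (MM N) w - brk false (MM P) w) = 0 := by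
      intro w
      have h := congrArg (fun f => MM f w) hi4'
      have h0 : MM (0 : T3) w = 0 := by
        have := hadd 0 0 w
        rw [add_zero] at this
        linarith
      simp only [h0] at h
      rw [hadd, hadd, hd23, hsub (xb * N - N * xb),
        (hlie N (hlieT N hN) (hc0 N hN)).2.2.1, (hlie P (hlieT P hP) (hc0 P hP)).2.2.1] at h
      exact h
    have hz0 : ∀ f ∈ ({R, Q, P, N, S} : Set T3), ∀ t : Wd, t.length = n →
        MM f t = 0 := fun f hf t ht => ih n (by omega) f hf t ht
    have hpolG : ∀ f : T3, PolyW (MM f) := hpoly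
    have hcomb1 : ∀ w : Wd, w.length = n + 1 → MM P w - MM N w + MM S w = 0 := by
      intro w hw
      have hval : ∀ w : Wd, w.length = n + 1 → MM ((P - N + S) + (ev2 W Lc d23) 1) w =
          MM P w - MM N w + MM S w := by
        intro w hw
        rw [hadd, hadd, hsub, hXz _ hX1 w hw, add_zero]
      by_cases hc : true ∈ (w.map fun y => y.1)
      · have h := (hvan _ (hpolG ((P - N + S) + (ev2 W Lc d23) 1))).2.1 (w.map fun y => y.1) hc
          (fun μ hμ hcs => by
            have hl : ((w.map fun y => y.1).zip μ).length = n + 1 := by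
              rw [List.length_zip, hμ, min_self, List.length_map]
              exact hw
            have h1 := hM1 ((w.map fun y => y.1).zip μ)
            rw [(hd13 _ (n + 1) _ hFX1 hl).1, dep_mrg_zero n _ (hz0 P hP) _ hl,
              dep_brk_zero true (hz0 P hP) hl, dep_brk_zero true (hz0 N hN) hl] at h1
            have h2 : csum ((w.map fun y => y.1).zip μ) *
                MM ((P - N + S) + (ev2 W Lc d23) 1) ((w.map fun y => y.1).zip μ) = 0 := by
              linarith
            exact (mul_eq_zero.1 h2).resolve_left hcs) (w.map fun y => y.2) (by simp)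
        rw [dep_zip, hval w hw] at h
        exact h
      · have hp : ∀ y ∈ w, y.1 = false := by
          intro y hy
          by_contra hne
          rw [Bool.not_eq_false] at hne
          exact hc (List.mem_map.2 ⟨y, hy, hne⟩)
        rw [hpure P hP false w hp, hpure N hN false w hp, hpure S hS false w hp]
        ring
    have hcomb2 : ∀ w : Wd, w.length = n + 1 → MM N w - MM P w + MM Q w = 0 := by
      intro w hw
      have hval : ∀ w : Wd, w.length = n + 1 → MM ((N - P + Q) + (ev2 W Lb d23) 1) w =
          MM N w - MM P w + MM Q w := by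
        intro w hw
        rw [hadd, hadd, hsub, hXz _ hX2 w hw, add_zero]
      by_cases hc : false ∈ (w.map fun y => y.1)
      · have h := (hvan _ (hpolG ((N - P + Q) + (ev2 W Lb d23) 1))).2.2 (w.map fun y => y.1) hc
          (fun μ hμ hcs => by
            have hl : ((w.map fun y => y.1).zip μ).length = n + 1 := by
              rw [List.length_zip, hμ, min_self, List.length_map]
              exact hw
            have h1 := hM2 ((w.map fun y => y.1).zip μ)
            rw [(hd13 _ (n + 1) _ hFX2 hl).2, dep_mrg_zero n _ (hz0 N hN) _ hl,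
              dep_brk_zero false (hz0 N hN) hl, dep_brk_zero false (hz0 P hP) hl] at h1
            have h2 : bsum ((w.map fun y => y.1).zip μ) *
                MM ((N - P + Q) + (ev2 W Lb d23) 1) ((w.map fun y => y.1).zip μ) = 0 := by
              linarith
            exact (mul_eq_zero.1 h2).resolve_left hcs) (w.map fun y => y.2) (by simp)
        rw [dep_zip, hval w hw] at h
        exact h
      · have hp : ∀ y ∈ w, y.1 = true := by
          intro y hy
          by_contra hne
          rw [Bool.not_eq_true] at hne
          exact hc (List.mem_map.2 ⟨y, hy, hne⟩)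
        rw [hpure P hP true w hp, hpure N hN true w hp, hpure Q hQ true w hp]
        ring
    -- `X1` is in `Fil (n + 2)`
    have hPNS : Fil (n + 2) (P - N + S) := by
      intro u hu
      by_cases hu' : nbc u < n + 1
      · exact hFadd _ _ _ (hFsub _ _ _ (hFil P hP) (hFil N hN)) (hFil S hS) u hu'
      · have hl : P - N + S ∈ LieT (Fin 3) := by
          unfold LieT
          have h1 := hlieT P hP
          have h2 := hlieT N hN
          have h3 := hlieT S hS
          unfold LieT at h1 h2 h3
          exact add_mem (sub_mem h1 h2) h3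
        have hc : coeff (P - N + S) [0] = 0 := by
          rw [coeff_add, coeff_sub, hc0 P hP, hc0 N hN, hc0 S hS]
          ring
        refine hinj (P - N + S) (n + 1) hl hc (fun w hw => ?_) u (by omega)
        rw [hadd, hsub]
        exact hcomb1 w hw
    have hFX1' : Fil (n + 2) ((P - N + S) + (ev2 W Lc d23) 1) := hFadd _ _ _ hPNS hX1
    -- the data
    have hPR : PR (n + 1) (dep_cut (n + 1) (MM P)) (dep_cut (n + 1) (MM R)) := by
      have hcut : ∀ (f : Wd → ℚ) (w : Wd), (f w = 0) → dep_cut (n + 1) f w = 0 := by
        intro f w h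
        unfold dep_cut
        split_ifs
        · exact h
        · rfl
      have hcut' : ∀ (f : Wd → ℚ) (w : Wd), w.length = n + 1 → dep_cut (n + 1) f w = f w := by
        intro f w h
        unfold dep_cut
        rw [if_pos h]
      refine ⟨?_, ?_, ?_, ?_, ?_, ?_, ?_, ?_, ?_, ?_, ?_, ?_⟩
      · intro w hw
        exact if_neg hw
      · intro w hw
        exact if_neg hw
      · exact dep_cut_lie _ (hlie P (hlieT P hP) (hc0 P hP)).1
      · exact dep_cut_lie _ (hlie R (hlieT R hR) (hc0 R hR)).1
      · exact dep_cut_pol _ (hpoly P)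
      · exact dep_cut_pol _ (hpoly R)
      · intro w hw
        exact hcut _ _ (hz P hP w hw)
      · intro w hw
        exact hcut _ _ (hz R hR w hw)
      · intro x w hw
        exact hcut _ _ (hpure P hP x w hw)
      · intro u v
        refine hcut _ _ (hsupp R _ fun t ht => ?_)
        rw [List.map_append, List.filter_eq_append_iff] at ht
        obtain ⟨t1, t2, rfl, h1, h2⟩ := ht
        refine hcz t1 t2 (fun hmem => ?_) fun hmem => ?_
        · have h3 : (1 : Fin 3) ∈ t1.filter (· ≠ 0) := by
            rw [List.mem_filter]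
            exact ⟨hmem, by decide⟩
          rw [h1, List.mem_map] at h3
          obtain ⟨y, hy, h4⟩ := h3
          unfold cw at hy
          rw [List.mem_map] at hy
          obtain ⟨z, -, rfl⟩ := hy
          simp [lt3] at h4
        · have h3 : (2 : Fin 3) ∈ t2.filter (· ≠ 0) := by
            rw [List.mem_filter]
            exact ⟨hmem, by decide⟩
          rw [h2, List.mem_map] at h3
          obtain ⟨y, hy, h4⟩ := h3
          unfold bw at hy
          rw [List.mem_map] at hy
          obtain ⟨z, -, rfl⟩ := hy
          simp [lt3] at h4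
      · intro w hw htot
        have h := hi2M w
        rw [htot, zero_mul, zero_add] at h
        rw [dep_brk_congr true (g := MM R) (fun t ht => hcut' _ _ ht) hw,
          dep_brk_congr false (g := MM P) (fun t ht => hcut' _ _ ht) hw]
        rw [dep_brk_congr false (f := MM Q) (g := fun t => MM P t + MM R t) hQ' hw,
          dep_brk_add] at h
        linarith
      · intro w hw hcs
        have h := hM1 w
        have h1 := (hd13 _ (n + 2) w hFX1' hw).1
        rw [hcs, zero_mul, neg_zero] at h1
        rw [h1, zero_add] at h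
        have hN' : ∀ t : Wd, t.length = n + 1 → MM P t = (MM P t + MM R t) + MM N t := by
          intro t ht
          have e1 := hcomb2 t ht
          have e2 := hQ' t ht
          linarith
        rw [dep_brk_congr true (f := MM P) (g := fun t => (MM P t + MM R t) + MM N t) hN' hw,
          dep_brk_add] at h
        rw [dep_brk_congr true (g := fun t => MM P t + MM R t)
          (fun t ht => by rw [hcut' _ _ ht, hcut' _ _ ht]) hw,
          dep_mrg_congr (n + 1) _ (MM P) (fun t ht => hcut' _ _ ht) w hw]
        linarith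
    have hres := s_IIb n0 hB (n + 1) (by omega) _ _ hPR
    have hP0 : ∀ w : Wd, w.length = n + 1 → MM P w = 0 := by
      intro w hw
      have := (hres w).1
      unfold dep_cut at this
      rwa [if_pos hw] at this
    have hR0 : ∀ w : Wd, w.length = n + 1 → MM R w = 0 := by
      intro w hw
      have := (hres w).2
      unfold dep_cut at this
      rwa [if_pos hw] at this
    intro f hf w hw
    have e1 := hP0 w hw
    have e2 := hR0 w hw
    have e3 := hQ' w hw
    have e4 := hcomb2 w hw
    have e5 := hcomb1 w hw
    simp only [Set.mem_insert_iff, Set.mem_singleton_iff] at hf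
    rcases hf with rfl | rfl | rfl | rfl | rfl
    · exact e2
    · linarith
    · exact e1
    · linarith
    · linarith
  intro f hf u hu
  exact hinj f (nbc u) (hlieT f hf) (hc0 f hf) (fun w hw => main _ (by omega) f hf w hw) u rfl

end

end Pent
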